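import Pool.Agent.Y321.PJ.Main

/-!
# Periodic orbits through a given open set (helper742)

In a minimal attractor of a hyperbolic system every periodic orbit with a negative Birkhoff sum is
shadowed by periodic orbits with negative sums that pass through a prescribed open set meeting the
attractor.
-/

set_option autoImplicit false

open Filter Topology Set Metric MeasureTheory

namespace Run7.h742.AT

open Pool.Agent.H789R2.AN Pool.Agent.H721R2 Pool.Agent.Y321.PJ

variable {X E : Type*} [MetricSpace X] [NormedAddCommGroup E] [NormedSpace ℝ E]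

/-- Periodic orbits with negative sums through a prescribed open set. -/
theorem loc_neg [CompactSpace X] (S : HypSys X E) {c : ℝ} (h : LP S.g c) {A : Set X}
    (hA : MinAtt S.g A) {φ : X → ℝ} {L B : ℝ} (hL : 0 ≤ L)
    (hφ : ∀ x y, |φ x - φ y| ≤ L * dist x y) (hB : ∀ x, |φ x| ≤ B)
    {p : X} (hp : p ∈ A) {q : ℕ} (hq : 1 ≤ q) (hpq : S.g^[q] p = p) (hneg : birk S.g φ q p < 0)
    {U : Set X} (hU : IsOpen U) {u : X} (hu : u ∈ U) (huA : u ∈ A) :
    ∃ y ∈ U, ∃ T : ℕ, 1 ≤ T ∧ S.g^[T] y = y ∧ birk S.g φ T y < 0 := by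
  have hK := S.one_le_K
  have hK0 : 0 < S.K := by linarith
  obtain ⟨ε₀, hε₀, hper⟩ := per_shadow S h
  obtain ⟨r, hr, hrU⟩ := Metric.isOpen_iff.mp hU u hu
  set β : ℝ := -birk S.g φ q p with hβ
  have hβ0 : 0 < β := by linarith
  have hB0 : 0 ≤ B := le_trans (abs_nonneg _) (hB p)
  have hq0 : (0 : ℝ) < q := by exact_mod_cast hq
  obtain ⟨ε, hε0, hε1, hε2, hε3⟩ : ∃ ε : ℝ, 0 < ε ∧ 2 * ε ≤ ε₀ ∧ 17 * S.K * ε < r ∧
      L * (16 * S.K * ε) * q ≤ β / 2 := by
    refine ⟨min (ε₀ / 2) (min (r / (18 * S.K)) (β / (2 * (L + 1) * (16 * S.K) * q))), ?_, ?_, ?_,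
      ?_⟩
    · refine lt_min (by linarith) (lt_min (by positivity) (by positivity))
    · have := min_le_left (ε₀ / 2) (min (r / (18 * S.K)) (β / (2 * (L + 1) * (16 * S.K) * q)))
      linarith
    · have h1 : min (ε₀ / 2) (min (r / (18 * S.K)) (β / (2 * (L + 1) * (16 * S.K) * q))) ≤
          r / (18 * S.K) := (min_le_right _ _).trans (min_le_left _ _)
      rw [le_div_iff₀ (by positivity)] at h1
      nlinarith
    · have h1 : min (ε₀ / 2) (min (r / (18 * S.K)) (β / (2 * (L + 1) * (16 * S.K) * q))) ≤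
          β / (2 * (L + 1) * (16 * S.K) * q) := (min_le_right _ _).trans (min_le_right _ _)
      have h0 : 0 < min (ε₀ / 2) (min (r / (18 * S.K)) (β / (2 * (L + 1) * (16 * S.K) * q))) :=
        lt_min (by linarith) (lt_min (by positivity) (by positivity))
      rw [le_div_iff₀ (by positivity)] at h1
      set e := min (ε₀ / 2) (min (r / (18 * S.K)) (β / (2 * (L + 1) * (16 * S.K) * q)))
      have h2 : 0 ≤ e * (2 * (16 * S.K) * q) := by positivity
      nlinarith
  obtain ⟨n₁, hn₁, z₁, h11, h12⟩ := minAtt_trans h hA huA hp hε0 1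
  obtain ⟨n₂, hn₂, z₂, h21, h22⟩ := minAtt_trans h hA hp huA hε0 1
  -- the number of periods
  obtain ⟨k, hk⟩ := exists_nat_gt (((n₁ : ℝ) + n₂) * (B + L * (16 * S.K * ε)) / (β / 2))
  have hk' : ((n₁ : ℝ) + n₂) * (B + L * (16 * S.K * ε)) < k * (β / 2) := by
    rwa [div_lt_iff₀ (by linarith)] at hk
  set T : ℕ := n₁ + (q * k + n₂) with hT
  let z : ℕ → X := fun i => if i < n₁ then S.g^[i] z₁ else
    if i < n₁ + q * k then S.g^[i - n₁] p else S.g^[i - (n₁ + q * k)] z₂
  have hz1 : ∀ i, i < n₁ → z i = S.g^[i] z₁ := fun i hi => if_pos hi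
  have hz2 : ∀ i, i < q * k → z (n₁ + i) = S.g^[i] p := fun i hi => by
    show (if n₁ + i < n₁ then _ else if n₁ + i < n₁ + q * k then S.g^[n₁ + i - n₁] p else _) = _
    rw [if_neg (by omega), if_pos (by omega), Nat.add_sub_cancel_left]
  have hz3 : ∀ i, z (n₁ + (q * k + i)) = S.g^[i] z₂ := fun i => by
    show (if n₁ + (q * k + i) < n₁ then _ else if n₁ + (q * k + i) < n₁ + q * k then _ else
      S.g^[n₁ + (q * k + i) - (n₁ + q * k)] z₂) = _
    rw [if_neg (by omega), if_neg (by omega)]
    congr 2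
    omega
  have hpk : S.g^[q * k] p = p := by
    rw [Function.iterate_mul]; exact Function.iterate_fixed hpq k
  have hε' : 0 ≤ 2 * ε := by linarith
  obtain ⟨y, hy, hyz⟩ := hper (2 * ε) hε1 T z (by omega) (by
    intro i hi
    rcases lt_trichotomy (i + 1) n₁ with h1 | h1 | h1
    · rw [hz1 i (by omega), hz1 (i + 1) h1, Function.iterate_succ_apply', dist_self]
      exact hε'
    · -- jump to `p`
      have hzp : dist (z n₁) p ≤ ε := by
        rcases Nat.eq_zero_or_pos (q * k) with h0 | h0
        · have h3 := hz3 0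
          rw [h0] at h3
          simp only [add_zero, Function.iterate_zero, id_eq] at h3
          rw [h3]; exact h21.le
        · have h3 := hz2 0 h0
          simp only [add_zero, Function.iterate_zero, id_eq] at h3
          rw [h3, dist_self]; exact hε0.le
      rw [hz1 i (by omega), h1, ← Function.iterate_succ_apply' S.g i z₁, Nat.succ_eq_add_one, h1]
      have := dist_triangle (S.g^[n₁] z₁) p (z n₁)
      rw [dist_comm p] at this
      linarith
    · obtain ⟨j, rfl⟩ : ∃ j, i = n₁ + j := ⟨i - n₁, by omega⟩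
      rcases lt_trichotomy (j + 1) (q * k) with h2 | h2 | h2
      · rw [hz2 j (by omega), add_assoc, hz2 (j + 1) h2, Function.iterate_succ_apply', dist_self]
        exact hε'
      · have e3 : z (n₁ + j + 1) = z₂ := by
          have h3 := hz3 0
          simp only [add_zero, Function.iterate_zero, id_eq] at h3
          rw [add_assoc, h2, h3]
        rw [hz2 j (by omega), e3, ← Function.iterate_succ_apply' S.g j p, Nat.succ_eq_add_one, h2,
          hpk, dist_comm]
        linarith
      · obtain ⟨l, rfl⟩ : ∃ l, j = q * k + l := ⟨j - q * k, by omega⟩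
        have e4 : n₁ + (q * k + l) + 1 = n₁ + (q * k + (l + 1)) := by ring
        rw [e4, hz3, hz3, Function.iterate_succ_apply', dist_self]
        exact hε') (by
    have e5 : T - 1 = n₁ + (q * k + (n₂ - 1)) := by omega
    rw [e5, hz3, ← Function.iterate_succ_apply' S.g (n₂ - 1) z₂, Nat.succ_eq_add_one,
      Nat.sub_add_cancel hn₂, hz1 0 (by omega)]
    simp only [Function.iterate_zero, id_eq]
    have := dist_triangle (S.g^[n₂] z₂) u z₁
    rw [dist_comm u] at this
    linarith)
  have hT1 : 1 ≤ T := by omega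
  refine ⟨y, hrU ?_, T, hT1, hy, ?_⟩
  · rw [mem_ball]
    have h1 := hyz 0 (by omega)
    rw [hz1 0 (by omega)] at h1
    simp only [Function.iterate_zero, id_eq] at h1
    have h2 := dist_triangle y z₁ u
    nlinarith
  · -- the Birkhoff sum
    have hstep : ∀ i < T, φ (S.g^[i] y) ≤ φ (z i) + L * (16 * S.K * ε) := by
      intro i hi
      have h1 := hyz i hi
      have h2 := (abs_le.mp (hφ (S.g^[i] y) (z i))).2
      have h3 : L * dist (S.g^[i] y) (z i) ≤ L * (16 * S.K * ε) :=
        mul_le_mul_of_nonneg_left (by linarith) hL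
      linarith
    have h1 : birk S.g φ T y ≤ ∑ i ∈ Finset.range T, φ (z i) + T * (L * (16 * S.K * ε)) := by
      have : birk S.g φ T y ≤ ∑ i ∈ Finset.range T, (φ (z i) + L * (16 * S.K * ε)) :=
        Finset.sum_le_sum fun i hi => hstep i (Finset.mem_range.mp hi)
      rw [Finset.sum_add_distrib, Finset.sum_const, Finset.card_range, nsmul_eq_mul] at this
      exact this
    have h2 : ∑ i ∈ Finset.range T, φ (z i) ≤ n₁ * B + (k * birk S.g φ q p + n₂ * B) := by
      rw [hT, Finset.sum_range_add, Finset.sum_range_add]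
      refine add_le_add ?_ (add_le_add (le_of_eq ?_) ?_)
      · calc ∑ i ∈ Finset.range n₁, φ (z i) ≤ ∑ i ∈ Finset.range n₁, B :=
            Finset.sum_le_sum fun i _ => (abs_le.mp (hB _)).2
          _ = n₁ * B := by rw [Finset.sum_const, Finset.card_range, nsmul_eq_mul]
      · rw [← birk_mul hpq k]
        apply Finset.sum_congr rfl
        intro i hi
        rw [hz2 i (Finset.mem_range.mp hi)]
      · calc ∑ i ∈ Finset.range n₂, φ (z (n₁ + (q * k + i))) ≤ ∑ i ∈ Finset.range n₂, B :=
            Finset.sum_le_sum fun i _ => (abs_le.mp (hB _)).2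
          _ = n₂ * B := by rw [Finset.sum_const, Finset.card_range, nsmul_eq_mul]
    have h3 : (T : ℝ) * (L * (16 * S.K * ε)) =
        (n₁ + n₂) * (L * (16 * S.K * ε)) + k * (L * (16 * S.K * ε) * q) := by
      rw [hT]; push_cast; ring
    have h4 : (k : ℝ) * (L * (16 * S.K * ε) * q) ≤ k * (β / 2) :=
      mul_le_mul_of_nonneg_left hε3 (Nat.cast_nonneg k)
    have h5 : birk S.g φ q p = -β := by rw [hβ]; ring
    rw [h5] at h2
    nlinarith

end Run7.h742.AT
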