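import Pool.Agent.Run7.h742.AT.Loc
import Pool.Agent.W740.TU.Sym

/-!
# Volume contracting periodic points through a given open set, on manifolds (helper742)
-/

set_option autoImplicit false
set_option linter.unusedSectionVars false

open scoped Manifold ContDiff Topology ENNReal
open Set Filter MeasureTheory

namespace Run7.h742.AT

open Pool.Agent.H789R2.AN Pool.Agent.H721R2 Pool.Agent.Y321.PJ

theorem isAtt_univ {X : Type*} [MetricSpace X] [Nonempty X] (g : X ≃ₜ X) : IsAtt g univ :=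
  ⟨isClosed_univ, univ_nonempty, fun _ => by simp, fun _ _ _ _ => mem_univ _⟩

theorem exists_min {X : Type*} [MetricSpace X] [CompactSpace X] [Nonempty X] (g : X ≃ₜ X) :
    ∃ A, MinAtt g A := by
  obtain ⟨A, -, hA⟩ := exists_minAtt (isAtt_univ g)
  exact ⟨A, hA⟩

theorem birk_neg_fun {X : Type*} [MetricSpace X] (g : X ≃ₜ X) (φ : X → ℝ) (n : ℕ) (x : X) :
    birk g (fun y => -φ y) n x = -birk g φ n x := by
  simp only [birk, Finset.sum_neg_distrib]

section main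

variable {E : Type*} [NormedAddCommGroup E] [NormedSpace ℝ E] [FiniteDimensional ℝ E]
  {M : Type*} [TopologicalSpace M] [T2Space M] [CompactSpace M] [ConnectedSpace M]
  [ChartedSpace E M] [IsManifold 𝓘(ℝ, E) ∞ M]

theorem main_loc (f : Diffeomorph 𝓘(ℝ, E) 𝓘(ℝ, E) M M 1)
    (hf2 : ContMDiff 𝓘(ℝ, E) 𝓘(ℝ, E) 2 f) (hf2' : ContMDiff 𝓘(ℝ, E) 𝓘(ℝ, E) 2 f.symm)
    (Es Eu : ∀ x : M, Submodule ℝ (TangentSpace 𝓘(ℝ, E) x)) (hA : IsAnosov f Es Eu)
    (U : Set M) (hU : IsOpen U)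
    (hUm : ∀ x, ∃ y ∈ U, ∀ 𝒰 ∈ 𝓝ˢ (diagonal M), ∀ᶠ n : ℕ in atTop,
      (f.symm^[n] x, f.symm^[n] y) ∈ 𝒰)
    (hper : ∀ p ∈ U, ∀ k : ℕ, 1 ≤ k → f^[k] p = p → 1 ≤ perJac E f k p) :
    TopTransitive f ∧ (∀ (k : ℕ) (p : M), 1 ≤ k → f^[k] p = p → 1 ≤ perJac E f k p) ∧
      ((∀ p ∈ U, ∀ k : ℕ, 1 ≤ k → f^[k] p = p → perJac E f k p ≤ 1) →
        ∀ (k : ℕ) (p : M), 1 ≤ k → f^[k] p = p → perJac E f k p ≤ 1) := by
  obtain ⟨m, e, he, hemb, hinj⟩ := exists_embedding_euclidean_of_compact (I := 𝓘(ℝ, E)) (M := M)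
  let _ : MetricSpace M := hemb.isEmbedding.comapMetricSpace e
  have hiso : ∀ x y : M, dist x y = ‖e x - e y‖ := fun x y => dist_eq_norm (e x) (e y)
  have he1 : ContMDiff 𝓘(ℝ, E) (𝓡 m) 1 e := he.of_le (by simp)
  have he2 : ContMDiff 𝓘(ℝ, E) (𝓡 m) 2 e := he.of_le ENat.LEInfty.out
  obtain ⟨N, S, hN, hg⟩ := exists_sys1 hiso he1 hinj f Es Eu hA
  let _ : MeasurableSpace M := borel M
  have _ : BorelSpace M := ⟨rfl⟩
  set G : M → M := f^[N] with hG
  set G' : M → M := f.symm^[N] with hG'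
  have hgG : ∀ x, S.g x = G x := fun x => by rw [hg]; rfl
  have hgG' : ∀ x, S.g.symm x = G' x := fun x => by rw [hg]; rfl
  have hgG1 : (S.g : M → M) = G := funext hgG
  have hgG1' : (S.g.symm : M → M) = G' := funext hgG'
  have hGs : ContMDiff 𝓘(ℝ, E) 𝓘(ℝ, E) 2 G := smooth_iter2 f hf2 N
  have hGs' : ContMDiff 𝓘(ℝ, E) 𝓘(ℝ, E) 2 G' := smooth_iter2 f.symm hf2' N
  have hGs1 : ContMDiff 𝓘(ℝ, E) 𝓘(ℝ, E) 1 G := hGs.of_le (by norm_num)
  have hGs1' : ContMDiff 𝓘(ℝ, E) 𝓘(ℝ, E) 1 G' := hGs'.of_le (by norm_num)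
  have hl : ∀ x, G' (G x) = x := fun x => by
    rw [← hgG, ← hgG', S.g.symm_apply_apply]
  have hr : ∀ x, G (G' x) = x := fun x => by
    rw [← hgG, ← hgG', S.g.apply_symm_apply]
  have hli : ∀ (n : ℕ) (x : M), G'^[n] (G^[n] x) = x := fun n x =>
    (Function.LeftInverse.iterate (f := G) (g := G') hl n) x
  have hri : ∀ (n : ℕ) (x : M), G^[n] (G'^[n] x) = x := fun n x =>
    (Function.LeftInverse.iterate (f := G') (g := G) hr n) x
  obtain ⟨L, hL⟩ := jac_lip e hiso he2 hinj G G' hGs hGs' hl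
  obtain ⟨B, hB⟩ : ∃ B, ∀ x, |jac E e G x| ≤ B := by
    obtain ⟨B, hB⟩ := (isCompact_univ (X := M)).exists_bound_of_continuousOn
      (f := jac E e G) hL.continuous.continuousOn
    exact ⟨B, fun x => hB x trivial⟩
  obtain ⟨μ, hμf, hμo, hμ⟩ := exists_measure (E := E) e he2 hinj
  have hbirk : ∀ n x, birk S.g (jac E e G) n x = jac E e (G^[n]) x := by
    intro n x
    rw [birk, hgG1]
    exact jac_iter e he1 hinj G G' hGs1 hGs1' hl n x
  have hμ1 : ∀ C : ℝ, ∃ κ : ℝ≥0∞, κ ≠ 0 ∧ ∀ W, IsOpen W → ∀ n : ℕ,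
      (∀ y ∈ W, -C ≤ birk S.g (jac E e G) n y) → κ * μ W ≤ μ (S.g^[n] '' W) := by
    intro C
    obtain ⟨κ, hκ, h1⟩ := hμ C
    refine ⟨κ, hκ, fun W hW n hWn => ?_⟩
    rw [hgG1]
    refine h1 (G^[n]) (G'^[n]) (iter_smooth G hGs1 n) (iter_smooth G' hGs1' n) (hli n) (hri n) W
      hW (fun y hy => ?_)
    rw [← hbirk]
    exact hWn y hy
  have hφ : ∀ x y, |jac E e G x - jac E e G y| ≤ (L : ℝ) * dist x y := fun x y => by
    have := hL.dist_le_mul x y; rwa [Real.dist_eq] at this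
  have hit : ∀ n, G^[n] = f^[N * n] := fun n => (Function.iterate_mul f N n).symm
  have hdet : ∀ T x, (dg E (G^[T]) x).det ≠ 0 := by
    intro T x h2
    have h1 := det_dg_ne (G^[T]) (G'^[T]) (iter_smooth G hGs1 T) (iter_smooth G' hGs1' T)
        (hli T) x
    rw [h2, mul_zero] at h1
    exact zero_ne_one h1
  -- the Birkhoff sums at the periodic points
  have hsum : ∀ (T : ℕ) (p : M), S.g^[T] p = p →
      birk S.g (jac E e G) T p = Real.log (perJac E f (N * T) p) ∧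
        0 < perJac E f (N * T) p ∧ f^[N * T] p = p := by
    intro T p hp
    have hpG : G^[T] p = p := by rw [← hgG1]; exact hp
    have e1 : perJac E f (N * T) p = |(dg E (G^[T]) p).det| := by rw [hit]; rfl
    refine ⟨?_, ?_, by rw [← hit]; exact hpG⟩
    · rw [hbirk, jac_eq e he1 hinj _ (iter_smooth G hGs1 T) p (hdet T p), hpG, e1]
      ring
    · rw [e1]; exact abs_pos.mpr (hdet T p)
  obtain ⟨c, h⟩ := exists_LP S
  -- `U` meets all attractors
  have hmeet : ∀ A, IsAtt S.g A → ∃ u ∈ U, u ∈ A := by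
    intro A hAt
    obtain ⟨a, ha⟩ := hAt.nonempty
    obtain ⟨u, huU, hu⟩ := hUm a
    refine ⟨u, huU, hAt.sat a ha u ?_⟩
    have h1 : Tendsto (fun n : ℕ => dist (f.symm^[n] a) (f.symm^[n] u)) atTop (𝓝 0) := by
      rw [Metric.tendsto_atTop]
      intro δ hδ
      have h2 : {q : M × M | dist q.1 q.2 < δ} ∈ 𝓝ˢ (diagonal M) := by
        rw [nhdsSet_diagonal_eq_uniformity]
        exact Metric.dist_mem_uniformity hδ
      obtain ⟨n₀, hn₀⟩ := eventually_atTop.mp (hu _ h2)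
      refine ⟨n₀, fun n hn => ?_⟩
      have h3 : dist (f.symm^[n] a) (f.symm^[n] u) < δ := hn₀ n hn
      rw [Real.dist_eq, sub_zero, abs_of_nonneg dist_nonneg]
      exact h3
    have h2 : Tendsto (fun n : ℕ => N * n) atTop atTop := by
      apply tendsto_id.const_mul_atTop'
      omega
    have h3 := h1.comp h2
    show Tendsto (fun n : ℕ => dist (S.g.symm^[n] a) (S.g.symm^[n] u)) atTop (𝓝 0)
    have h4 : ∀ (n : ℕ) (x : M), S.g.symm^[n] x = f.symm^[N * n] x := fun n x => by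
      rw [hgG1', Function.iterate_mul]
    simp only [h4]
    exact h3
  -- all minimal attractors are the whole space
  have hall : ∀ A, MinAtt S.g A → A = univ := by
    intro A hAm
    by_contra hne
    obtain ⟨p, hp, q, hq, hpq, hneg⟩ := exists_neg S h hAm hne L.coe_nonneg hφ hB μ hμ1
    obtain ⟨u, huU, huA⟩ := hmeet A hAm.1
    obtain ⟨y, hyU, T, hT, hyT, hyn⟩ := loc_neg S h hAm L.coe_nonneg hφ hB hp hq hpq hneg hU huU
      huA
    obtain ⟨h1, h2, h3⟩ := hsum T y hyT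
    have h4 := hper y hyU (N * T) (Nat.mul_pos hN hT) h3
    rw [h1] at hyn
    exact absurd (Real.log_nonneg h4) (not_le.mpr hyn)
  obtain ⟨A, hAm⟩ := exists_min S.g
  obtain rfl : A = univ := hall A hAm
  obtain ⟨u, huU, -⟩ := hmeet univ hAm.1
  -- the sums at the periodic points of `f`
  have hsum' : ∀ (k : ℕ) (p : M), f^[k] p = p → S.g^[k] p = p ∧
      birk S.g (jac E e G) k p = N * Real.log (perJac E f k p) ∧ 0 < perJac E f k p := by
    intro k p hp
    have h1 : ∀ j, (f^[k])^[j] p = p := fun j => Function.iterate_fixed hp j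
    have h2 : S.g^[k] p = p := by
      rw [hgG1, hit, mul_comm, Function.iterate_mul]; exact h1 N
    have hfs : ContMDiff 𝓘(ℝ, E) 𝓘(ℝ, E) 1 (f^[k]) := iter_smooth f f.contMDiff k
    have hfs' : ContMDiff 𝓘(ℝ, E) 𝓘(ℝ, E) 1 (f.symm^[k]) := iter_smooth f.symm f.symm.contMDiff k
    have hfl : ∀ x, f.symm^[k] (f^[k] x) = x := fun x =>
      (Function.LeftInverse.iterate (f := f) (g := f.symm) f.symm_apply_apply k) x
    have hd : (dg E (f^[k]) p).det ≠ 0 := by
      intro h3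
      have h4 := det_dg_ne (f^[k]) (f.symm^[k]) hfs hfs' hfl p
      rw [h3, mul_zero] at h4
      exact zero_ne_one h4
    refine ⟨h2, ?_, abs_pos.mpr hd⟩
    have h3 := jac_iter e he1 hinj (f^[k]) (f.symm^[k]) hfs hfs' hfl N p
    have h4 : (f^[k])^[N] = G^[k] := by
      rw [hit, mul_comm, Function.iterate_mul]
    rw [hbirk, ← h4, ← h3]
    have h5 : ∀ i ∈ Finset.range N, jac E e (f^[k]) ((f^[k])^[i] p) =
        Real.log (perJac E f k p) := by
      intro i _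
      rw [h1 i, jac_eq e he1 hinj _ hfs p hd, hp]
      show Real.log |(dg E (f^[k]) p).det| + _ - _ = Real.log |(dg E (f^[k]) p).det|
      ring
    rw [Finset.sum_congr rfl h5, Finset.sum_const, Finset.card_range, nsmul_eq_mul]
  have hN0 : (0 : ℝ) < N := by exact_mod_cast hN
  refine ⟨?_, ?_, ?_⟩
  · intro V W hV hVn hW hWn
    obtain ⟨k, hk⟩ := trans_of_min_univ h hAm V W hV hVn hW hWn
    refine ⟨N * k, ?_⟩
    rw [Function.iterate_mul, ← hG, ← hgG1]
    exact hk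
  · intro k p hk hp
    obtain ⟨h1, h2, h3⟩ := hsum' k p hp
    by_contra hlt
    push Not at hlt
    have h4 : birk S.g (jac E e G) k p < 0 := by
      rw [h2]
      exact mul_neg_of_pos_of_neg hN0 (Real.log_neg h3 hlt)
    obtain ⟨y, hyU, T, hT, hyT, hyn⟩ := loc_neg S h hAm L.coe_nonneg hφ hB (mem_univ p) hk h1 h4
      hU huU (mem_univ u)
    obtain ⟨h5, h6, h7⟩ := hsum T y hyT
    have h8 := hper y hyU (N * T) (Nat.mul_pos hN hT) h7
    rw [h5] at hyn
    exact absurd (Real.log_nonneg h8) (not_le.mpr hyn)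
  · intro hper' k p hk hp
    obtain ⟨h1, h2, h3⟩ := hsum' k p hp
    by_contra hlt
    push Not at hlt
    have h4 : birk S.g (fun x => -jac E e G x) k p < 0 := by
      rw [birk_neg_fun, h2]
      have := mul_pos hN0 (Real.log_pos hlt)
      linarith
    obtain ⟨y, hyU, T, hT, hyT, hyn⟩ := loc_neg S h hAm (φ := fun x => -jac E e G x) L.coe_nonneg
      (fun x y => by
        have h0 : -jac E e G x - -jac E e G y = -(jac E e G x - jac E e G y) := by ring
        rw [h0, abs_neg]; exact hφ x y)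
      (fun x => by rw [abs_neg]; exact hB x) (mem_univ p) hk h1 h4 hU huU (mem_univ u)
    obtain ⟨h5, h6, h7⟩ := hsum T y hyT
    have h8 := hper' y hyU (N * T) (Nat.mul_pos hN hT) h7
    rw [birk_neg_fun, h5] at hyn
    have h9 := Real.log_nonpos h6.le h8
    linarith

end main

end Run7.h742.AT
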