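import Pool.Agent.Run7.h742.AT.Man

/-!
# Invariant measures, of finite or infinite mass, comparable to Lebesgue measure near a point
(helper742)
-/

set_option autoImplicit false
set_option linter.unusedSectionVars false

open scoped Manifold ContDiff Topology ENNReal
open Set Filter MeasureTheory

namespace Run7.h742.AT

open Pool.Agent.H789R2.AN Pool.Agent.H721R2 Pool.Agent.Y321.PJ

section lhc

variable {E : Type*} [NormedAddCommGroup E] [NormedSpace ℝ E] [FiniteDimensional ℝ E]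
  {M : Type*} [TopologicalSpace M] [ChartedSpace E M] [IsManifold 𝓘(ℝ, E) ∞ M]
  {F : Type*} [NormedAddCommGroup F] [InnerProductSpace ℝ F]

theorem lh_cont (h : M → F) (hh : ContMDiff 𝓘(ℝ, E) 𝓘(ℝ, F) 2 h) (x₀ p : M)
    (hp : p ∈ (extChartAt 𝓘(ℝ, E) x₀).source) (hinj : Function.Injective (dm E h p)) :
    ContinuousAt (lh h x₀) (extChartAt 𝓘(ℝ, E) x₀ p) := by
  haveI : IsManifold 𝓘(ℝ, E) 1 M := IsManifold.of_le (n := ∞) (by simp)
  haveI : IsManifold 𝓘(ℝ, E) 2 M := IsManifold.of_le (n := ∞) ENat.LEInfty.out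
  have h0 : extChartAt 𝓘(ℝ, E) x₀ p ∈ (extChartAt 𝓘(ℝ, E) x₀).target :=
    (extChartAt 𝓘(ℝ, E) x₀).map_source hp
  have h1 : ContDiffAt ℝ 1 (fderiv ℝ (hatMap h x₀)) (extChartAt 𝓘(ℝ, E) x₀ p) :=
    (hatMap_contDiffAt2 h hh x₀ _ h0).fderiv_right (m := 1) (by norm_num)
  have h2 := gr_hat_pos h (hh.of_le (by norm_num)) x₀ p hp hinj
  have h3 : ContDiffAt ℝ 1 (fun y => gr (fderiv ℝ (hatMap h x₀) y))
      (extChartAt 𝓘(ℝ, E) x₀ p) := (contDiff_gr 1).contDiffAt.comp _ h1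
  exact (contDiffAt_const.mul (h3.log h2.ne')).continuousAt

end lhc

variable {E : Type*} [NormedAddCommGroup E] [NormedSpace ℝ E] [FiniteDimensional ℝ E]
  [MeasurableSpace E] [BorelSpace E]
  {M : Type*} [TopologicalSpace M] [T2Space M] [CompactSpace M] [ConnectedSpace M]
  [ChartedSpace E M] [IsManifold 𝓘(ℝ, E) ∞ M] [MeasurableSpace M] [BorelSpace M]

/-- In the chart at `x₀` the measures `μ` and `ν` are comparable on `W`, with the constant `K`. -/
def Comp (ν : Measure E) (μ : Measure M) (x₀ : M) (K : ℝ≥0∞) (W : Set M) : Prop :=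
  ∀ B ⊆ W, MeasurableSet B → ν (extChartAt 𝓘(ℝ, E) x₀ '' B) ≤ K * μ B ∧
    μ B ≤ K * ν (extChartAt 𝓘(ℝ, E) x₀ '' B)

/-- The Jacobian of a measure preserving map at a fixed point. -/
theorem exp_le (ν : Measure E) [ν.IsAddHaarMeasure] (μ : Measure M) {x₀ : M} {K : ℝ≥0∞}
    {W : Set M} (hW : IsOpen W) (hWs : W ⊆ (extChartAt 𝓘(ℝ, E) x₀).source)
    (hC : Comp ν μ x₀ K W) (G G' : M → M) (hG : ContMDiff 𝓘(ℝ, E) 𝓘(ℝ, E) 2 G)
    (hG' : ContMDiff 𝓘(ℝ, E) 𝓘(ℝ, E) 2 G') (hl : ∀ x, G' (G x) = x)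
    (hμ : MeasurePreserving G μ μ) {p : M} (hp : p ∈ W) (hGp : G p = p) {D : ℝ}
    (hD : D < Real.log |(dg E G p).det|) : ENNReal.ofReal (Real.exp D) ≤ K * K := by
  haveI : IsManifold 𝓘(ℝ, E) 1 M := IsManifold.of_le (n := ∞) (by simp)
  obtain ⟨m, e, he, hemb, hinj⟩ := exists_embedding_euclidean_of_compact (I := 𝓘(ℝ, E)) (M := M)
  have he1 : ContMDiff 𝓘(ℝ, E) (𝓡 m) 1 e := he.of_le (by simp)
  have he2 : ContMDiff 𝓘(ℝ, E) (𝓡 m) 2 e := he.of_le ENat.LEInfty.out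
  have hG1 : ContMDiff 𝓘(ℝ, E) 𝓘(ℝ, E) 1 G := hG.of_le (by norm_num)
  have hG1' : ContMDiff 𝓘(ℝ, E) 𝓘(ℝ, E) 1 G' := hG'.of_le (by norm_num)
  have hd : (dg E G p).det ≠ 0 := by
    intro h3
    have h4 := det_dg_ne G G' hG1 hG1' hl p
    rw [h3, mul_zero] at h4
    exact zero_ne_one h4
  have hinjG : ∀ x, Function.Injective (dm E (e ∘ G) x) :=
    inj_comp e he1 hinj G G' hG1 hG1' hl
  set κ := extChartAt 𝓘(ℝ, E) x₀ with hκ
  have hps : p ∈ κ.source := hWs hp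
  -- continuity at `p`
  have c0 : ContinuousAt κ p := continuousAt_extChartAt' hps
  have c1 : ContinuousAt (fun x => lh (e ∘ G) x₀ (κ x)) p :=
    ContinuousAt.comp (f := κ) (g := lh (e ∘ G) x₀) (lh_cont (e ∘ G) (he2.comp hG) x₀ p hps (hinjG p)) c0
  have c2 : ContinuousAt (fun x => lh e x₀ (κ (G x))) p := by
    have c3 : ContinuousAt (fun x => lh e x₀ (κ x)) (G p) := by
      rw [hGp]
      exact ContinuousAt.comp (f := κ) (g := lh e x₀) (lh_cont e he2 x₀ p hps (hinj p)) c0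
    exact ContinuousAt.comp (f := G) (g := fun x => lh e x₀ (κ x)) c3 hG.continuous.continuousAt
  have hval : lh (e ∘ G) x₀ (κ p) - lh e x₀ (κ (G p)) = Real.log |(dg E G p).det| := by
    have h1 := jac_local e he1 hinj G G' hG1 hG1' hl x₀ p hps
    have h2 := jac_eq e he1 hinj G hG1 p hd
    rw [hGp] at h2 ⊢
    rw [← h1, h2]
    ring
  have hev : ∀ᶠ x in 𝓝 p, D < lh (e ∘ G) x₀ (κ x) - lh e x₀ (κ (G x)) := by
    apply (c1.sub c2).eventually_const_lt
    show D < lh (e ∘ G) x₀ (κ p) - lh e x₀ (κ (G p))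
    rw [hval]; exact hD
  have hevW : ∀ᶠ x in 𝓝 p, x ∈ W := hW.mem_nhds hp
  have hevG : ∀ᶠ x in 𝓝 p, G x ∈ W := by
    have : Tendsto G (𝓝 p) (𝓝 p) := by
      have := hG.continuous.continuousAt (x := p)
      rwa [ContinuousAt, hGp] at this
    exact this.eventually hevW
  have hevB : ∀ᶠ x in 𝓝 p, κ x ∈ Metric.ball (κ p) 1 :=
    c0.eventually (Metric.ball_mem_nhds _ one_pos)
  obtain ⟨V, hV, hVo, hpV⟩ := eventually_nhds_iff.mp (hev.and (hevW.and (hevG.and hevB)))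
  have hVW : V ⊆ W := fun x hx => (hV x hx).2.1
  have hGVW : G '' V ⊆ W := by
    rintro _ ⟨x, hx, rfl⟩
    exact (hV x hx).2.2.1
  have hVs : V ⊆ κ.source := hVW.trans hWs
  have h1 := vol_pair ν e he1 hinj G G' hG1 hG1' hl x₀ x₀ V hVo hVs
    (fun x hx => hWs (hV x hx).2.2.1) D (fun x hx => by
      rw [jac_local e he1 hinj G G' hG1 hG1' hl x₀ x (hVs hx)]
      have := (hV x hx).1
      rw [← hκ] at *
      linarith)
  rw [← hκ] at h1
  have hinjG' : Function.Injective G := Function.LeftInverse.injective hl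
  have hGVo : MeasurableSet (G '' V) := by
    have h2 : G '' V = G' ⁻¹' V ∩ range G := by
      ext x
      constructor
      · rintro ⟨y, hy, rfl⟩
        exact ⟨by show G' (G y) ∈ V; rw [hl]; exact hy, y, rfl⟩
      · rintro ⟨hx, y, rfl⟩
        have hx' : G' (G y) ∈ V := hx
        rw [hl] at hx'
        exact ⟨y, hx', rfl⟩
    rw [h2]
    exact (hVo.preimage hG'.continuous).measurableSet.inter
      (isCompact_range hG.continuous).isClosed.measurableSet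
  have h2 := (hC (G '' V) hGVW hGVo).1
  have h3 := (hC V hVW hVo.measurableSet).2
  have h4 : μ (G '' V) = μ V := by
    rw [← hμ.measure_preimage hGVo.nullMeasurableSet, preimage_image_eq _ hinjG']
  have h5 : ENNReal.ofReal (Real.exp D) * ν (κ '' V) ≤ K * K * ν (κ '' V) :=
    calc ENNReal.ofReal (Real.exp D) * ν (κ '' V) ≤ ν (κ '' (G '' V)) := h1
      _ ≤ K * μ (G '' V) := h2
      _ = K * μ V := by rw [h4]
      _ ≤ K * (K * ν (κ '' V)) := mul_le_mul_right h3 K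
      _ = K * K * ν (κ '' V) := by rw [mul_assoc]
  have hopen : IsOpen (κ '' V) := isOpen_image_chart x₀ V hVs hVo
  have hpos : ν (κ '' V) ≠ 0 := (hopen.measure_pos ν ⟨κ p, p, hpV, rfl⟩).ne'
  have hfin : ν (κ '' V) ≠ ⊤ := by
    have h6 : κ '' V ⊆ Metric.closedBall (κ p) 1 := by
      rintro _ ⟨x, hx, rfl⟩
      exact Metric.ball_subset_closedBall (hV x hx).2.2.2
    exact ((measure_mono h6).trans_lt (isCompact_closedBall _ _).measure_lt_top).ne
  exact (ENNReal.mul_le_mul_iff_left hpos hfin).mp h5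

theorem perJac_mul (f : Diffeomorph 𝓘(ℝ, E) 𝓘(ℝ, E) M M 1) {k : ℕ} {p : M}
    (hp : f^[k] p = p) : 0 < perJac E f k p ∧ perJac E f.symm k p * perJac E f k p = 1 ∧
      ∀ j : ℕ, Real.log |(dg E (f^[k * j]) p).det| = j * Real.log (perJac E f k p) := by
  haveI : IsManifold 𝓘(ℝ, E) 1 M := IsManifold.of_le (n := ∞) (by simp)
  obtain ⟨m, e, he, hemb, hinj⟩ := exists_embedding_euclidean_of_compact (I := 𝓘(ℝ, E)) (M := M)
  have he1 : ContMDiff 𝓘(ℝ, E) (𝓡 m) 1 e := he.of_le (by simp)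
  have hfs : ContMDiff 𝓘(ℝ, E) 𝓘(ℝ, E) 1 (f^[k]) := iter_smooth f f.contMDiff k
  have hfs' : ContMDiff 𝓘(ℝ, E) 𝓘(ℝ, E) 1 (f.symm^[k]) := iter_smooth f.symm f.symm.contMDiff k
  have hfl : ∀ x, f.symm^[k] (f^[k] x) = x := fun x =>
    (Function.LeftInverse.iterate (f := f) (g := f.symm) f.symm_apply_apply k) x
  have h4 := det_dg_ne (f^[k]) (f.symm^[k]) hfs hfs' hfl p
  rw [hp] at h4
  have hd : (dg E (f^[k]) p).det ≠ 0 := by
    intro h3
    rw [h3, mul_zero] at h4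
    exact zero_ne_one h4
  refine ⟨abs_pos.mpr hd, ?_, fun j => ?_⟩
  · show |(dg E (f.symm^[k]) p).det| * |(dg E (f^[k]) p).det| = 1
    rw [← abs_mul, h4, abs_one]
  · have h1 : ∀ j, (f^[k])^[j] p = p := fun j => Function.iterate_fixed hp j
    have h3 := jac_iter e he1 hinj (f^[k]) (f.symm^[k]) hfs hfs' hfl j p
    have hjl : ∀ x, (f.symm^[k])^[j] ((f^[k])^[j] x) = x := fun x =>
      (Function.LeftInverse.iterate (f := f^[k]) (g := f.symm^[k]) hfl j) x
    have hdj : (dg E ((f^[k])^[j]) p).det ≠ 0 := by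
      intro h5
      have h6 := det_dg_ne ((f^[k])^[j]) ((f.symm^[k])^[j]) (iter_smooth _ hfs j)
        (iter_smooth _ hfs' j) hjl p
      rw [h5, mul_zero] at h6
      exact zero_ne_one h6
    have h5 : ∀ i ∈ Finset.range j, jac E e (f^[k]) ((f^[k])^[i] p) =
        Real.log (perJac E f k p) := by
      intro i _
      rw [h1 i, jac_eq e he1 hinj _ hfs p hd, hp]
      show Real.log |(dg E (f^[k]) p).det| + _ - _ = Real.log |(dg E (f^[k]) p).det|
      ring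
    rw [Finset.sum_congr rfl h5, Finset.sum_const, Finset.card_range, nsmul_eq_mul,
      jac_eq e he1 hinj _ (iter_smooth _ hfs j) p hdj, h1 j] at h3
    rw [Function.iterate_mul]
    linarith

/-- At the periodic points where the invariant measure is comparable to Lebesgue measure the
Jacobian is at most one. -/
theorem perJac_le (ν : Measure E) [ν.IsAddHaarMeasure] (μ : Measure M) {x₀ : M} {K : ℝ≥0∞}
    (hK : K ≠ ⊤)
    {W : Set M} (hW : IsOpen W) (hWs : W ⊆ (extChartAt 𝓘(ℝ, E) x₀).source)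
    (hC : Comp ν μ x₀ K W) (f : Diffeomorph 𝓘(ℝ, E) 𝓘(ℝ, E) M M 1)
    (hf2 : ContMDiff 𝓘(ℝ, E) 𝓘(ℝ, E) 2 f) (hf2' : ContMDiff 𝓘(ℝ, E) 𝓘(ℝ, E) 2 f.symm)
    (hμ : MeasurePreserving f μ μ) {p : M} (hp : p ∈ W) {k : ℕ} (hkp : f^[k] p = p) :
    perJac E f k p ≤ 1 := by
  obtain ⟨h0, -, hlog⟩ := perJac_mul f hkp
  by_contra hlt
  push Not at hlt
  have hl := Real.log_pos hlt
  have hKK : K * K ≠ ⊤ := ENNReal.mul_ne_top hK hK
  have hbd : ∀ j : ℕ, (j : ℝ) * Real.log (perJac E f k p) - 1 ≤ (K * K).toReal := by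
    intro j
    have hfl : ∀ x, f.symm^[k * j] (f^[k * j] x) = x := fun x =>
      (Function.LeftInverse.iterate (f := f) (g := f.symm) f.symm_apply_apply (k * j)) x
    have h1 := exp_le ν μ hW hWs hC (f^[k * j]) (f.symm^[k * j]) (smooth_iter2 f hf2 _)
      (smooth_iter2 f.symm hf2' _) hfl (hμ.iterate _) hp
      (by rw [Function.iterate_mul]; exact Function.iterate_fixed hkp j)
      (D := (j : ℝ) * Real.log (perJac E f k p) - 1) (by rw [hlog j]; linarith)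
    have h2 := (ENNReal.ofReal_le_iff_le_toReal hKK).mp h1
    have h3 := Real.add_one_le_exp ((j : ℝ) * Real.log (perJac E f k p) - 1)
    linarith
  obtain ⟨j, hj⟩ := exists_nat_gt (((K * K).toReal + 1) / Real.log (perJac E f k p))
  rw [div_lt_iff₀ hl] at hj
  have := hbd j
  linarith

theorem perJac_eq (ν : Measure E) [ν.IsAddHaarMeasure] (μ : Measure M) {x₀ : M} {K : ℝ≥0∞}
    (hK : K ≠ ⊤)
    {W : Set M} (hW : IsOpen W) (hWs : W ⊆ (extChartAt 𝓘(ℝ, E) x₀).source)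
    (hC : Comp ν μ x₀ K W) (f : Diffeomorph 𝓘(ℝ, E) 𝓘(ℝ, E) M M 1)
    (hf2 : ContMDiff 𝓘(ℝ, E) 𝓘(ℝ, E) 2 f) (hf2' : ContMDiff 𝓘(ℝ, E) 𝓘(ℝ, E) 2 f.symm)
    (hμ : MeasurePreserving f μ μ) {p : M} (hp : p ∈ W) {k : ℕ} (hkp : f^[k] p = p) :
    perJac E f k p = 1 := by
  refine le_antisymm (perJac_le ν μ hK hW hWs hC f hf2 hf2' hμ hp hkp) ?_
  obtain ⟨h0, h1, -⟩ := perJac_mul f hkp
  have hkp' : f.symm^[k] p = p := by
    have hfl : f.symm^[k] (f^[k] p) = p :=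
      (Function.LeftInverse.iterate (f := f) (g := f.symm) f.symm_apply_apply k) p
    rwa [hkp] at hfl
  have hμ' : MeasurePreserving f.symm μ μ :=
    MeasurePreserving.symm (f.toHomeomorph.toMeasurableEquiv) hμ
  have h2 := perJac_le ν μ hK hW hWs hC f.symm hf2' hf2 hμ' hp hkp'
  by_contra hlt
  push Not at hlt
  have h3 : perJac E f.symm k p * perJac E f k p ≤ 1 * perJac E f k p :=
    mul_le_mul_of_nonneg_right h2 h0.le
  linarith

end Run7.h742.AT
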